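import Pool.Agent.H79.BN.Targets
import Pool.Agent.H93.BL.Basic

/-!
# Non-separation: exits of a line along a side, rule for a corner
-/

open MeasureTheory Set Filter Topology Pool.Agent.H93.BL Pool.Agent.H79.BN

namespace Pool.Agent.H94.BN

theorem x2 (h0 : T_V0) (h1 : T_V1) (h3 : T_V3) : T_X2 := by
  intro n _ w hn hw d s k τ c hc hseg hcr
  obtain ⟨-, -, hpos, -, -⟩ := h1 n w hn hw
  obtain ⟨-, -, -, -, -, hs1, -, -, hs2, -⟩ := h0 n hn s
  have hed : w s - w (s - 1) = ed w (s - 1) := by
    unfold ed; rw [hs1]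
  have hp : 0 < cr (ed w (s - 1)) (ed w s) := by
    have := hpos (s - 1)
    rwa [hs1] at this
  constructor
  · intro hd
    by_cases hk : k = s
    · exact Or.inl hk
    · right
      obtain ⟨-, -, -, -, h5⟩ := h3 n w hn hw s k _ hseg
      rcases h5 hk (by
        rw [hd, add_sub_cancel_left, cr_smul_right, cr_smul_right, cr_self, mul_zero,
          mul_zero]) with ⟨-, h7⟩ | ⟨h6, h7⟩
      · exfalso
        rw [h7, hd, cr_smul_right] at hcr
        nlinarith [mul_pos hc hp]
      · exact ⟨h7, h6⟩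
  · intro hd
    by_cases hk : k = s - 1
    · exact Or.inl hk
    · right
      obtain ⟨-, -, -, -, h5⟩ := h3 n w hn hw (s - 1) k _ hseg
      rcases h5 hk (by
        rw [add_sub_right_comm, hed, hd, cr_add_right, cr_self, cr_smul_right, cr_neg_right,
          cr_smul_right, cr_self, mul_zero, neg_zero, mul_zero, add_zero]) with
        ⟨h6, h7⟩ | ⟨-, h7⟩
      · exact ⟨h7.trans hs2, h6⟩
      · exfalso
        rw [hs1] at h7
        rw [h7, hd, cr_neg_right, cr_smul_right, cr_swap] at hcr
        nlinarith [mul_pos hc hp]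

theorem rk (hrm : T_RM) (hx1 : T_X1) : T_RK := by
  intro n _ w E d s hn hw
  constructor
  · intro ha hb hE τ
    apply hrm n w E _ d hn hw
    · intro hd
      rw [hd, cr_zero_right] at ha
      exact lt_irrefl _ ha
    · intro s' hs' t ht hseg hcr
      have hpt : w s + (τ : ℂ) * d + (t : ℂ) * d = w s + ((τ + t : ℝ) : ℂ) * d := by
        push_cast; ring
      rw [hpt] at hseg ⊢
      obtain ⟨-, -, h3, -⟩ := hx1 n w hn hw (w s) d s s' (τ + t) hseg hcr
      obtain ⟨h4, h5⟩ := h3 rfl ha hb
      subst h4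
      rw [h5]
      rcases hE with hE | hE
      · exact absurd hE hs'
      · exact hE
  · intro ha hb hE τ
    apply hrm n w E _ d hn hw
    · intro hd
      rw [hd, cr_zero_right] at ha
      exact lt_irrefl _ ha
    · intro s' hs' t ht hseg hcr
      have hpt : w s + (τ : ℂ) * d + (t : ℂ) * d = w s + ((τ + t : ℝ) : ℂ) * d := by
        push_cast; ring
      rw [hpt] at hseg ⊢
      obtain ⟨-, -, -, h3⟩ := hx1 n w hn hw (w s) d s s' (τ + t) hseg hcr
      obtain ⟨h4, h5⟩ := h3 rfl ha hb
      subst h4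
      rw [h5]
      rcases hE with hE | hE
      · exact absurd hE hs'
      · exact hE

end Pool.Agent.H94.BN
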