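import Pool.Agent.H79.BN.Targets
import Pool.Agent.H93.BL.Basic

/-!
# Non-separation: rule M
-/

open MeasureTheory Set Filter Topology Pool.Agent.H93.BL Pool.Agent.H79.BN

namespace Pool.Agent.H94.BN

lemma rf_smul (e v : ℂ) (t : ℝ) : rf e ((t : ℂ) * v) = (t : ℂ) * rf e v := by
  unfold rf
  rw [map_mul, Complex.conj_ofReal]
  ring

theorem rm (h1 : T_V1) (h7 : T_V7) (h8 : T_V8) (h9 : T_V9) : T_RM := by
  intro n _ w E y d hn hw hd hyp
  by_contra hab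
  obtain ⟨P, z, hclose, hsurv, hpos, hdir⟩ := h8 n w E y d hab
  obtain ⟨hed, -, -, -, -⟩ := h1 n w hn hw
  choose f hf0 hf using hsurv
  have hd0 : (0 : ℝ) < ‖d‖ := norm_pos_iff.mpr hd
  have hdc : ((‖d‖ : ℝ) : ℂ) ≠ 0 := by exact_mod_cast hd0.ne'
  set F : Ultrafilter ℕ := Filter.hyperfilter ℕ with hF
  have hFle : (F : Filter ℕ) ≤ atTop := Nat.hyperfilter_le_atTop
  obtain ⟨s, hs⟩ := Ultrafilter.eq_pure_of_finite (F.map fun k => (f k 1).1)
  have hs' : ∀ᶠ k in (F : Filter ℕ), (f k 1).1 = s := by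
    have h2 : ({s} : Set (Fin n)) ∈ F.map fun k => (f k 1).1 := by
      rw [hs]; exact Ultrafilter.mem_pure.mpr rfl
    exact Ultrafilter.mem_map.mp h2
  have hsE : s ∉ E := by
    obtain ⟨k, hk⟩ := hs'.exists
    rw [← hk]
    exact (hf k 1).2
  have hstep : ∀ᶠ k in (F : Filter ℕ), (P k).Step (z k) (f k 1) ∧ (f k 1).1 = s := by
    filter_upwards [hs'] with k hk
    refine ⟨?_, hk⟩
    have := (hf k 0).1
    rwa [hf0 k] at this
  obtain ⟨t, ht0, htseg, htcr, htpos, htdir⟩ := h7 n w hn hw F P z (fun k => f k 1) s y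
    (d / (‖d‖ : ℂ)) (fun δ hδ => hFle (hclose δ hδ)) hstep (hpos.mono_left hFle)
    (hdir.mono_left hFle)
  have he : d = ((‖d‖ : ℝ) : ℂ) * (d / (‖d‖ : ℂ)) := by field_simp
  have hpt : y + ((t / ‖d‖ : ℝ) : ℂ) * d = y + (t : ℂ) * (d / (‖d‖ : ℂ)) := by
    push_cast
    field_simp
  have hcr : cr (ed w s) d ≤ 0 := by
    rw [he, cr_smul_right]
    exact mul_nonpos_of_nonneg_of_nonpos hd0.le htcr
  have hAb := hyp s hsE (t / ‖d‖) (div_nonneg ht0 hd0.le) (by rw [hpt]; exact htseg) hcr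
  rw [hpt] at hAb
  refine h9 n w E _ _ hAb F P (fun k => f k 1) _ (fun δ hδ => hFle (hclose δ hδ)) ?_ htpos htdir ?_
  · exact Eventually.of_forall fun k => ⟨fun m => f k (m + 1), rfl, fun m => hf k (m + 1)⟩
  · have hed0 : (0 : ℝ) < ‖ed w s‖ := norm_pos_iff.mpr (hed s)
    refine ⟨‖d‖ * ‖ed w s‖ ^ 2, by positivity, ?_⟩
    have hedc : ((‖ed w s‖ : ℝ) : ℂ) ≠ 0 := by exact_mod_cast hed0.ne'
    conv_lhs => rw [he, rf_smul]
    push_cast
    field_simp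

end Pool.Agent.H94.BN
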