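import Pool.Agent.H79.BN.Targets3
import Pool.Agent.H93.BL.Basic

/-!
# Non-separation: quadrilaterals close to a parallelogram
-/

open MeasureTheory Set Filter Topology Pool.Agent.H93.BL Pool.Agent.H79.BN

namespace Pool.Agent.H94.BN

theorem s4 (h1 : T_V1) (hy3 : T_Y3) (hs2 : T_S2) : T_S4 := by
  intro w hw hsum hip
  obtain ⟨hne, -, hpos, -, -⟩ := h1 4 w (by norm_num) hw
  have h02 : ed w 2 = -ed w 0 := by
    have e1 : ed w 2 = w 3 - w 2 := rfl
    have e2 : ed w 0 = w 1 - w 0 := rfl
    rw [e1, e2]; linear_combination -hsum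
  have h13 : ed w 3 = -ed w 1 := by
    have e1 : ed w 3 = w 0 - w 3 := rfl
    have e2 : ed w 1 = w 2 - w 1 := rfl
    rw [e1, e2]; linear_combination hsum
  have hip0 : ip (ed w 0) (ed w 1) ≠ 0 := hip
  have key : ∀ e : Fin 4, ed w (e + 2) = -ed w e ∧ ip (ed w e) (ed w (e + 1)) ≠ 0 := by
    intro e
    fin_cases e
    · exact ⟨h02, hip0⟩
    · refine ⟨h13, ?_⟩
      change ip (ed w 1) (ed w 2) ≠ 0
      rw [h02, ip_neg_right, ip_comm]
      exact neg_ne_zero.mpr hip0
    · constructor
      · change ed w 0 = -ed w 2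
        rw [h02, neg_neg]
      · change ip (ed w 2) (ed w 3) ≠ 0
        rw [h02, h13, ip_neg_right, ip_neg_left, neg_neg]
        exact hip0
    · constructor
      · change ed w 1 = -ed w 3
        rw [h13, neg_neg]
      · change ip (ed w 3) (ed w 0) ≠ 0
        rw [h13, ip_neg_left, ip_comm]
        exact neg_ne_zero.mpr hip0
  have hdet : ∀ e : Fin 4, ∃ δ > (0 : ℝ), ∀ P : Polygon (Fin 4), Close w δ P →
      P.Determines {e} := by
    intro e
    refine hy3 4 w {e} (by norm_num) hw ?_
    obtain ⟨h2, hi0⟩ := key e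
    obtain ⟨h3', -⟩ := key (e + 1)
    obtain ⟨-, hi2⟩ := key (e + 2)
    have i3 : e + 1 + 2 = e + 3 := by clear * -; revert e; decide
    have i3' : e + 2 + 1 = e + 3 := by clear * -; revert e; decide
    have i2 : e + 1 + 1 = e + 2 := by clear * -; revert e; decide
    rw [i3] at h3'
    rw [i3'] at hi2
    have hc : 0 < cr (ed w (e + 2)) (ed w (e + 3)) := by
      have := hpos (e + 2)
      rwa [i3'] at this
    have hu0 : ed w (e + 3) ≠ 0 := hne _
    have huu : 0 < ip (ed w (e + 3)) (ed w (e + 3)) := by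
      rw [ip_self]
      have := norm_pos_iff.mpr hu0
      positivity
    have hE1 : ed w (e + 1) = -ed w (e + 3) := by rw [h3', neg_neg]
    have hcond : ∀ k, k ∉ ({e} : Set (Fin 4)) → 0 ≤ cr (ed w k) (ed w (e + 3)) := by
      intro k hk
      have hk' : k ≠ e := hk
      have : k = e + 1 ∨ k = e + 2 ∨ k = e + 3 := by
        revert hk'; clear * -; revert k e; decide
      rcases this with rfl | rfl | rfl
      · rw [hE1, cr_neg_left, cr_self, neg_zero]
      · exact hc.le
      · rw [cr_self]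
    intro i hi hi1
    have hi' : i ≠ e := hi
    have hi1' : i + 1 ≠ e := hi1
    have : i = e + 1 ∨ i = e + 2 := by
      revert hi' hi1'; clear * -; revert i e; decide
    rcases this with rfl | rfl
    · refine hs2 4 w {e} (ed w (e + 3)) (by norm_num) hw hu0 hcond _ hi hi1 ?_ ?_
      · rintro ⟨-, h⟩
        rw [i2] at h
        exact hi2 h
      · rintro ⟨h, -⟩
        rw [hE1, ip_neg_left] at h
        linarith
    · refine hs2 4 w {e} (ed w (e + 3)) (by norm_num) hw hu0 hcond _ hi hi1 ?_ ?_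
      · rintro ⟨h, -⟩
        exact hc.ne' h
      · rintro ⟨h, -⟩
        exact hi2 h
  choose δ hδ hP using hdet
  refine ⟨Finset.univ.inf' Finset.univ_nonempty δ, ?_, ?_⟩
  · rw [gt_iff_lt, Finset.lt_inf'_iff]
    exact fun i _ => hδ i
  · intro P hc i
    refine hP i P ⟨hc.1, fun j => lt_of_lt_of_le (hc.2 j) ?_⟩
    exact Finset.inf'_le _ (Finset.mem_univ i)

end Pool.Agent.H94.BN
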